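import Mathlib
import Pool.Agent.U980.EQ.Main

/-!
# Equidistribution of Galois orbits on products of modular curves: points with different CM fields

Let `Y_j = Γ_j \ ℍ` (`j` in a finite set `ι`) be modular curves over a number field `F`, and let
`x_i = (x_{i,j})_j` be a sequence of special points of the product `X` of the curves `Y_j`, such that no
CM point occurs infinitely often in a coordinate. This is weaker than the assumption of the question,
that no proper special subvariety of `X` contains infinitely many `x_i`.

**Theorem.** The Galois orbits of the `x_i` over `F` are equidistributed with respect to the product of the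
hyperbolic measures in each of the following cases.

1. For all `i` the imaginary quadratic fields of the coordinates of `x_i` are pairwise different.
2. More generally, for all `i`, whenever two coordinates of `x_i` have the same imaginary quadratic
   field, their discriminants `D`, `D'` are of different size: `|D'| ≤ |D| ^ θ` or `|D| ≤ |D'| ^ θ`, where
   `θ ≥ 0` and `n θ < δ` (`n` is the number of coordinates, and `δ` is the exponent in the theorem on sparse
   equidistribution below).
3. More generally, for all `i` there is an order of the coordinates such that the `overlap` of each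
   coordinate `x_{i,j}` is at most `c |D_{i,j}| ^ η`, where `η < δ`; the overlap is the degree over `K` of the
   intersection of the ring class field of `x_{i,j}` with the composite of the ring class fields of the
   preceding coordinates of `x_i` *with the same imaginary quadratic field* `K`.

So the coordinates with other imaginary quadratic fields never matter, and what remains of the question are
coordinates with the same CM field and discriminants of comparable size whose ring class fields have a
large intersection. (For equal fundamental discriminants this is the mixing conjecture of Michel and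
Venkatesh, which was proved by Khayutin under congruence conditions at two primes and without
Landau-Siegel zeros.)

## The known facts

They are collected in `IsCM` and `SparseEquidistribution`. Here `G = Gal(ℚ̄/ℚ)`, `Γ = Gal(ℚ̄/F)`, and `gal K` is
`Gal(ℚ̄/K)` for the imaginary quadratic fields `K`. To have the action of the whole group `G`, the curve `Y` is
considered as a component of a (geometrically disconnected) modular curve over `ℚ`, the Shimura variety of
`GL₂` for some level subgroup of `GL₂(ℤ̂)`; `P` is the set of all CM points on it. For a CM point `y` let `O` be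
the order of the underlying elliptic curve, with discriminant `D` (`disc y = |D|`), let `K` be its field
(`fld y`) and `H` the ring class field of `O` (`N y = Gal(ℚ̄/H)`). Then `Gal(H/K)` is the class group of `O`,
`Gal(H/ℚ)` is generalized dihedral (`comm`, `inv`), `H = K(j(E))` (`stab`), so that the field of definition of
`y` over `K` is of bounded degree over `H` (`bounded`), and it is an abelian extension of `K` (`abelian`).
The 2-torsion of the class group has order at most `2 ^ (ω(D) + 1)` (`genus`), the class number is at most
`C |D|` (`class_number`), and there are finitely many CM points with bounded discriminant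
(`finite_disc`).

`SparseEquidistribution`: there is `δ > 0` such that the orbits of CM points `y_i` on one curve `Y`, with
discriminants tending to infinity, under subgroups `Δ_i` of `Gal(ℚ̄/K_i F)` are equidistributed on `Y` if they
are of size at least `|D_i| ^ (-δ)` times the size of the orbits under `Gal(ℚ̄/F)`. (Duke's theorem is
the case of the full orbits; the theorem for large subgroups follows from subconvexity bounds for the
twisted L-functions: Harcos-Michel, Zhang, Michel-Venkatesh.) Weak convergence of probability measures is
tested with bounded continuous functions, which is the same as with continuous functions with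
compact support if the limit is a probability measure.

## Proof

Let `U` be a normal subgroup of `G` of finite index in `Γ` which fixes all the CM fields. If `K_j ≠ K_k`, take
`g` in `G` which fixes `K_j` but not `K_k`. For `u` in `U` the element `u (g u g⁻¹)` fixes the ring class field of
`x_k` and acts on the ring class field of `x_j` like `u²` (`step`). So, up to 2-torsion, the class group of
`x_j` is obtained from elements of `U` which fix the ring class fields of all coordinates with
another CM field (`iterate`, `relIndex_le_of_pow`). This gives normal subgroups `Δ_j` of `G` in `Γ` which fix the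
`G`-orbits of the preceding coordinates, with `|Γ x_j| ≤ c · overlap_j · |Cl[2]| ^ n · |Δ_j x_j|` (`exists_delta`).
Averaging over `Δ_j` in the last coordinate `j`, then in the last but one, and so on, shows that the measures of
products of sets with boundaries of measure zero converge to the product of their measures
(`exists_far`, `main`).
-/

set_option autoImplicit false

namespace Pool.Agent.Results.MP_ad7a55_nt.DifferentCMFields

open Pool.Agent.U980.EQ MeasureTheory Filter Topology

variable {G 𝒦 : Type} [Group G] {ι : Type} {Y : ι → CMCurve G 𝒦}

/-- Every CM point occurs only finitely often in each coordinate. -/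
def CoordinatewiseStrict (x : ℕ → ∀ j, (Y j).P) : Prop :=
  ∀ j, ∀ p : (Y j).P, ∀ᶠ i in atTop, x i j ≠ p

/-- The Galois orbits of the points `x i` are equidistributed on the product of the curves. -/
def Equidistributed [Fintype ι] (Γ : Subgroup G) (x : ℕ → ∀ j, (Y j).P) : Prop :=
  ∀ f : BoundedContinuousFunction (∀ j, (Y j).X) ℝ,
    Tendsto (fun i => ∫ z, f z ∂(galoisMeasure Γ (x i))) atTop
      (𝓝 (∫ z, f z ∂(Measure.pi fun j => (Y j).m)))

/-- Coordinates of `x` with the same CM field have discriminants of different size. -/
def DifferentSizes (θ : ℝ) (x : ∀ j, (Y j).P) : Prop :=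
  ∀ j k, j ≠ k → (Y j).fld (x j) = (Y k).fld (x k) →
    ((Y k).disc (x k) : ℝ) ≤ ((Y j).disc (x j) : ℝ) ^ θ ∨
      ((Y j).disc (x j) : ℝ) ≤ ((Y k).disc (x k) : ℝ) ^ θ

theorem exists_rank {ι : Type} [Fintype ι] (D : ι → ℕ) :
    ∃ r : ι → ℕ, Function.Injective r ∧ ∀ j k, r k < r j → D k ≤ D j := by
  set n := Fintype.card ι with hn
  let e : ι ≃ Fin n := Fintype.equivFin ι
  refine ⟨fun j => D j * n + (e j : ℕ), ?_, ?_⟩
  · intro j k hjk
    have hjk' : D j * n + (e j : ℕ) = D k * n + (e k : ℕ) := hjk
    have h1 : (D j * n + (e j : ℕ)) % n = (D k * n + (e k : ℕ)) % n := by rw [hjk']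
    rw [Nat.mul_add_mod', Nat.mul_add_mod', Nat.mod_eq_of_lt (e j).2, Nat.mod_eq_of_lt (e k).2] at h1
    exact e.injective (Fin.ext h1)
  · intro j k hkj
    have h2 : D k * n + (e k : ℕ) < D j * n + (e j : ℕ) := hkj
    have h3 := (e j).2
    by_contra hlt
    push Not at hlt
    have h4 : (D j + 1) * n ≤ D k * n := Nat.mul_le_mul_right n hlt
    rw [add_mul, one_mul] at h4
    omega

/-- **Equidistribution of the Galois orbits of special points whose coordinates have different CM fields, or
the same CM field and discriminants of different size, or small overlap.** -/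
theorem result [Fintype ι] {gal : 𝒦 → Subgroup G} (hgal : IsQuadratic gal) {Γ : Subgroup G}
    (hΓ : Γ.index ≠ 0) (hY : ∀ j, IsCM gal Γ (Y j)) {δ : ℝ} (hδ : 0 < δ)
    (hE : ∀ j, SparseEquidistribution gal Γ (Y j) δ) (x : ℕ → ∀ j, (Y j).P)
    (hx : ∀ i j, x i j ∈ (Y j).comp) (hs : CoordinatewiseStrict x) :
    ((∀ i, Function.Injective fun j => (Y j).fld (x i j)) → Equidistributed Γ x) ∧
    (∀ θ : ℝ, 0 ≤ θ → Fintype.card ι * θ < δ → (∀ i, DifferentSizes θ (x i)) → Equidistributed Γ x) ∧
    ∀ r : ℕ → ι → ℕ, (∀ i, Function.Injective (r i)) → ∀ c η : ℝ, η < δ →
      (∀ i j, (overlap gal (r i) (x i) j : ℝ) ≤ c * ((Y j).disc (x i j) : ℝ) ^ η) →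
      Equidistributed Γ x := by
  classical
  have hC : ∀ r : ℕ → ι → ℕ, (∀ i, Function.Injective (r i)) → ∀ c η : ℝ, η < δ →
      (∀ j, ∀ᶠ i in atTop, (overlap gal (r i) (x i) j : ℝ) ≤ c * ((Y j).disc (x i j) : ℝ) ^ η) →
      Equidistributed Γ x := fun r hr c η hη hov f =>
    main hgal hΓ hY hE x hx hs r hr hη hov f
  refine ⟨fun hinj => ?_, fun θ hθ hθδ hsize => ?_, fun r hr c η hη hov =>
    hC r hr c η hη fun j => Eventually.of_forall fun i => hov i j⟩
  · refine hC (fun _ j => (Fintype.equivFin ι j : ℕ))
      (fun _ a b h => (Fintype.equivFin ι).injective (Fin.ext h)) 1 0 hδ fun j =>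
      Eventually.of_forall fun i => ?_
    rw [overlap_eq_one (hinj i) j]
    simp
  · choose r hr hrD using fun i => exists_rank fun j => (Y j).disc (x i j)
    choose C hCn using fun j => (hY j).class_number
    set B : ℝ := ∑ j, |C j| + 1 with hB
    have hB1 : 1 ≤ B := by
      have : 0 ≤ ∑ j, |C j| := Finset.sum_nonneg fun j _ => abs_nonneg _
      linarith
    refine hC r hr (B ^ Fintype.card ι) (Fintype.card ι * θ) hθδ fun j => ?_
    have hD : Tendsto (fun i => (Y j).disc (x i j)) atTop atTop := disc_tendsto (hY j) (hs j)
    filter_upwards [hD.eventually_ge_atTop 1] with i hi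
    have hD1 : (1 : ℝ) ≤ (Y j).disc (x i j) := by exact_mod_cast hi
    have hD0 : (0 : ℝ) ≤ (Y j).disc (x i j) := le_trans zero_le_one hD1
    have hpow1 : (1 : ℝ) ≤ ((Y j).disc (x i j) : ℝ) ^ θ := Real.one_le_rpow hD1 hθ
    have h1 := overlap_le hY (r i) (x i) j
    have h2 : (overlap gal (r i) (x i) j : ℝ) ≤ ∏ k, ((if r i k < r i j ∧
        (Y k).fld (x i k) = (Y j).fld (x i j) then
        ((Y k).N (x i k)).relIndex (gal ((Y k).fld (x i k))) else 1 : ℕ) : ℝ) := by
      exact_mod_cast h1
    refine h2.trans ?_
    have h3 : ∏ k, ((if r i k < r i j ∧ (Y k).fld (x i k) = (Y j).fld (x i j) then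
        ((Y k).N (x i k)).relIndex (gal ((Y k).fld (x i k))) else 1 : ℕ) : ℝ) ≤
        ∏ _k : ι, (B * ((Y j).disc (x i j) : ℝ) ^ θ) := by
      refine Finset.prod_le_prod (fun k _ => Nat.cast_nonneg _) fun k _ => ?_
      split_ifs with hk
      · have h4 : ((Y k).disc (x i k) : ℝ) ≤ ((Y j).disc (x i j) : ℝ) ^ θ := by
          have h5 : (Y k).disc (x i k) ≤ (Y j).disc (x i j) := hrD i j k hk.1
          have h6 : ((Y k).disc (x i k) : ℝ) ≤ (Y j).disc (x i j) := by exact_mod_cast h5
          rcases hsize i j k (fun h => by rw [h] at hk; exact lt_irrefl _ hk.1) hk.2.symm with h | h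
          · exact h
          · exact h6.trans (h.trans (Real.rpow_le_rpow (Nat.cast_nonneg _) h6 hθ))
        have h7 : C k ≤ B := by
          have : |C k| ≤ ∑ j, |C j| := Finset.single_le_sum (f := fun j => |C j|)
            (fun j _ => abs_nonneg _) (Finset.mem_univ k)
          linarith [le_abs_self (C k)]
        calc (((Y k).N (x i k)).relIndex (gal ((Y k).fld (x i k))) : ℝ)
            ≤ C k * (Y k).disc (x i k) := hCn k (x i k)
          _ ≤ B * (Y k).disc (x i k) := mul_le_mul_of_nonneg_right h7 (Nat.cast_nonneg _)
          _ ≤ B * ((Y j).disc (x i j) : ℝ) ^ θ := mul_le_mul_of_nonneg_left h4 (by linarith)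
      · push_cast
        nlinarith
    refine h3.trans (le_of_eq ?_)
    rw [Finset.prod_const, Finset.card_univ, mul_pow, ← Real.rpow_natCast (((Y j).disc (x i j) : ℝ) ^ θ),
      ← Real.rpow_mul hD0, mul_comm θ]

end Pool.Agent.Results.MP_ad7a55_nt.DifferentCMFields
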