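import Pool.Agent.U644.EQ.Mod

/-!
# Equidistribution of Galois orbits on products of modular curves: a subexponential loss is harmless

`ModularCurves` collects the known facts used, for a fixed number field `F` over which the modular curves `Y_j` have their
canonical models (the number fields in Q1 are treated one by one; a power of a product of such curves is a product of such
curves over the same `F`). The facts are elementary or classical.

* Only finitely many CM points on `Y_j` have at most `B` conjugates over `F` (class numbers tend to infinity, Heilbronn).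
* The Hecke correspondences `R_g ⊆ Y_i × Y_j`, the images of `{(τ, g τ)}`, `g ∈ GL_2^+(ℚ)`, are countably many, finite to finite,
  and a Galois element transports `R_g` into one of finitely many of them.
* Galois orbits of CM points on one modular curve do not escape to the cusps: this follows from the theorem of Duke for
  `SL_2(ℤ)\ℍ`, as the orbit of a CM point of discriminant `D` over `F` has at least `h(D) / [F:ℚ]` elements there, and `Y_j` is
  finite over `SL_2(ℤ)\ℍ`.

A proper special subvariety of a product is contained in one where one coordinate is a fixed CM point, or where two different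
coordinates are in a Hecke correspondence. These are proper special subvarieties themselves, so the strict sequences of Q1 are
the sequences of `Strict` below.
-/

set_option autoImplicit false

namespace Pool.Agent.Results.MP_ad7a55_nt.ExponentialLossSuffices

open MeasureTheory Filter Topology

/-- The modular curves with canonical models over a fixed number field `F`, their CM points and Hecke correspondences, with
the known facts that are used. -/
structure ModularCurves where
  /-- the modular curves in question -/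
  J : Type
  /-- the space `Y_j = Γ_j \ ℍ` -/
  Y : J → Type
  [top : ∀ j, TopologicalSpace (Y j)]
  [t2 : ∀ j, T2Space (Y j)]
  [lc : ∀ j, LocallyCompactSpace (Y j)]
  [sc : ∀ j, SecondCountableTopology (Y j)]
  [ms : ∀ j, MeasurableSpace (Y j)]
  [bs : ∀ j, BorelSpace (Y j)]
  /-- the normalised hyperbolic measure -/
  μ : ∀ j, Measure (Y j)
  [prob : ∀ j, IsProbabilityMeasure (μ j)]
  /-- the CM points of `Y_j` -/
  CM : J → Type
  [ct : ∀ j, Countable (CM j)]
  /-- a CM point as a point of `Y_j` -/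
  pt : ∀ {j}, CM j → Y j
  pt_inj : ∀ {j} (x y : CM j), pt x = pt y → x = y
  /-- the absolute Galois group of `F` -/
  Γ : Type
  [gp : Group Γ]
  [act : ∀ j, MulAction Γ (CM j)]
  fin_orb : ∀ {j} (x : CM j), (MulAction.orbit Γ x).Finite
  /-- only finitely many CM points have at most `B` conjugates -/
  big : ∀ (j : J) (B : ℕ), {x : CM j | (MulAction.orbit Γ x).ncard ≤ B}.Finite
  /-- the Hecke correspondences between `Y_i` and `Y_j` -/
  Hecke : ∀ i j, Set (Set (Y i × Y j))
  hecke_countable : ∀ i j, (Hecke i j).Countable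
  /-- a point of `Y_i` corresponds to at most `D` CM points of `Y_j` -/
  hecke_deg : ∀ i j, ∀ R ∈ Hecke i j, ∃ D : ℕ, ∀ (y : Y i) (A : Finset (CM j)), (∀ w ∈ A, (y, pt w) ∈ R) → A.card ≤ D
  /-- the Galois conjugates of a Hecke correspondence are in finitely many ones -/
  hecke_gal : ∀ i j, ∀ R ∈ Hecke i j, ∃ 𝒯 : Set (Set (Y i × Y j)), 𝒯.Finite ∧ 𝒯 ⊆ Hecke i j ∧
    ∀ (γ : Γ) (x : CM i) (y : CM j), (pt (γ • x), pt (γ • y)) ∈ R → ∃ R' ∈ 𝒯, (pt x, pt y) ∈ R'
  /-- no escape of mass on one curve -/
  tight : ∀ (j : J) (w : ℕ → CM j), (∀ τ, ∀ᶠ n in atTop, w n ≠ τ) → ∀ ε : ℝ, 0 < ε → ∃ K : Set (Y j), IsCompact K ∧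
    ∀ᶠ n in atTop, ({z | z ∈ MulAction.orbit Γ (w n) ∧ pt z ∉ K}.ncard : ℝ) ≤ ε * (MulAction.orbit Γ (w n)).ncard

attribute [instance] ModularCurves.top ModularCurves.t2 ModularCurves.lc ModularCurves.sc ModularCurves.ms
  ModularCurves.bs ModularCurves.prob ModularCurves.ct ModularCurves.gp ModularCurves.act

variable (C : ModularCurves)

/-- Every proper special subvariety of the product of the `Y_{φ i}` contains only finitely many points of the sequence. -/
def Strict {ι : Type} {φ : ι → C.J} (x : ℕ → ∀ i, C.CM (φ i)) : Prop :=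
  (∀ (i : ι) (τ : C.CM (φ i)), ∀ᶠ n in atTop, x n i ≠ τ) ∧
  ∀ i j : ι, i ≠ j → ∀ R ∈ C.Hecke (φ i) (φ j), ∀ᶠ n in atTop, (C.pt (x n i), C.pt (x n j)) ∉ R

/-- The average of `f` over the Galois orbit of the special point `x`. -/
noncomputable def average {ι : Type} {φ : ι → C.J} (f : (∀ i, C.Y (φ i)) → ℝ) (x : ∀ i, C.CM (φ i)) : ℝ :=
  (∑ᶠ y ∈ MulAction.orbit C.Γ x, f fun i => C.pt (y i)) / (MulAction.orbit C.Γ x).ncard

/-- Q1 for the product of the `Y_{φ i}`. -/
def Equidistribution {ι : Type} [Fintype ι] (φ : ι → C.J) : Prop :=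
  ∀ x : ℕ → ∀ i, C.CM (φ i), Strict C x → ∀ f : (∀ i, C.Y (φ i)) → ℝ, Continuous f → HasCompactSupport f →
    Tendsto (fun n => average C f (x n)) atTop (𝓝 (∫ y, f y ∂(Measure.pi fun i => C.μ (φ i))))

/-- For strict sequences every weak limit of the orbit measures is at least `c` times the Haar measure. -/
def LowerBound {ι : Type} [Fintype ι] (φ : ι → C.J) (c : ℝ) : Prop :=
  ∀ x : ℕ → ∀ i, C.CM (φ i), Strict C x → ∀ f : (∀ i, C.Y (φ i)) → ℝ, Continuous f → HasCompactSupport f →
    (∀ y, 0 ≤ f y) → ∀ ε : ℝ, 0 < ε → ∀ᶠ n in atTop,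
      c * ∫ y, f y ∂(Measure.pi fun i => C.μ (φ i)) - ε ≤ average C f (x n)

/-- For strict sequences every weak limit of the orbit measures is at most `c` times the Haar measure. -/
def UpperBound {ι : Type} [Fintype ι] (φ : ι → C.J) (c : ℝ) : Prop :=
  ∀ x : ℕ → ∀ i, C.CM (φ i), Strict C x → ∀ f : (∀ i, C.Y (φ i)) → ℝ, Continuous f → HasCompactSupport f →
    (∀ y, 0 ≤ f y) → ∀ ε : ℝ, 0 < ε → ∀ᶠ n in atTop,
      average C f (x n) ≤ c * ∫ y, f y ∂(Measure.pi fun i => C.μ (φ i)) + ε

def toCurves : Pool.Agent.U644.EQ.Mod.Curves where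
  J := C.J
  Y := C.Y
  μ := C.μ
  CM := C.CM
  pt := C.pt
  pt_inj := C.pt_inj
  Γ := C.Γ
  fin_orb := C.fin_orb
  big := C.big
  Hecke := C.Hecke
  hecke_countable := C.hecke_countable
  hecke_deg := C.hecke_deg
  hecke_gal := C.hecke_gal
  tight := C.tight

open Pool.Agent.U644.EQ Pool.Agent.U644.EQ.Mod

lemma average_eq {ι : Type} [Fintype ι] [Nonempty ι] (φ : ι → C.J) (f : (∀ i, C.Y (φ i)) → ℝ)
    (x : ∀ i, C.CM (φ i)) :
    average C f x = avg (equi (toCurves C)) (S := (⟨ι, φ⟩ : Prd (toCurves C))) f x := by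
  have hfin := finite_orbit (C := toCurves C) ⟨ι, φ⟩ x
  unfold average avg
  congr 1
  · exact finsum_mem_eq_finite_toFinset_sum _ hfin
  · exact congrArg Nat.cast (Set.ncard_eq_toFinset_card _ hfin)

lemma equid_iff {ι : Type} [Fintype ι] [Nonempty ι] (φ : ι → C.J) :
    Equidistribution C φ ↔ Equid (equi (toCurves C)) (⟨ι, φ⟩ : Prd (toCurves C)) := by
  constructor
  · intro h x hx f hf hfs
    have h1 := h x ((strict_iff (toCurves C) x).2 hx) f hf hfs
    refine h1.congr fun n => average_eq C φ f (x n)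
  · intro h x hx f hf hfs
    have h1 := h x ((strict_iff (toCurves C) (S := ⟨ι, φ⟩) x).1 hx) f hf hfs
    refine h1.congr fun n => (average_eq C φ f (x n)).symm

lemma lower_iff {ι : Type} [Fintype ι] [Nonempty ι] (φ : ι → C.J) (c : ℝ) :
    LowerBound C φ c ↔ LowerAt (equi (toCurves C)) (⟨ι, φ⟩ : Prd (toCurves C)) c := by
  constructor
  · intro h x hx f hf hfs hf0 ε hε
    filter_upwards [h x ((strict_iff (toCurves C) x).2 hx) f hf hfs hf0 ε hε] with n hn
    rw [average_eq C φ f (x n)] at hn
    exact hn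
  · intro h x hx f hf hfs hf0 ε hε
    filter_upwards [h x ((strict_iff (toCurves C) (S := ⟨ι, φ⟩) x).1 hx) f hf hfs hf0 ε hε] with n hn
    rw [average_eq C φ f (x n)]
    exact hn

lemma upper_iff {ι : Type} [Fintype ι] [Nonempty ι] (φ : ι → C.J) (c : ℝ) :
    UpperBound C φ c ↔ UpperAt (equi (toCurves C)) (⟨ι, φ⟩ : Prd (toCurves C)) c := by
  constructor
  · intro h x hx f hf hfs hf0 ε hε
    filter_upwards [h x ((strict_iff (toCurves C) x).2 hx) f hf hfs hf0 ε hε] with n hn
    rw [average_eq C φ f (x n)] at hn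
    exact hn
  · intro h x hx f hf hfs hf0 ε hε
    filter_upwards [h x ((strict_iff (toCurves C) (S := ⟨ι, φ⟩) x).1 hx) f hf hfs hf0 ε hε] with n hn
    rw [average_eq C φ f (x n)]
    exact hn

/-- (A) The following are equivalent: (1) Q1 for all products of modular curves over `F`; (2) there are numbers `c(n)` with
`1 ≤ c(n) θ^n` for all `θ > 1` and large `n` such that for every product of `n` modular curves and every strict sequence all
weak limits are at least `c(n)` times the Haar measure; (3) there are numbers `D(n)` with `D(n) ≤ θ^n` for all `θ > 1` and large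
`n` such that for every product of `n` modular curves and every strict sequence all weak limits are at most `D(n)` times the
Haar measure. (B) Q1 holds for the product `X` of the `Y_{φ i}` if all weak limits for strict sequences in the powers `X^{k+1}`
are at least `c(k)` times the Haar measure, where `1 ≤ c(k) θ^{k+1}` for all `θ > 1` and large `k`. -/
theorem result :
    List.TFAE [
      ∀ (ι : Type) [Fintype ι] [Nonempty ι] (φ : ι → C.J), Equidistribution C φ,
      ∃ c : ℕ → ℝ, (∀ θ : ℝ, 1 < θ → ∀ᶠ n : ℕ in atTop, 1 ≤ c n * θ ^ n) ∧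
        ∀ (ι : Type) [Fintype ι] [Nonempty ι] (φ : ι → C.J), LowerBound C φ (c (Fintype.card ι)),
      ∃ D : ℕ → ℝ, (∀ θ : ℝ, 1 < θ → ∀ᶠ n : ℕ in atTop, D n ≤ θ ^ n) ∧
        ∀ (ι : Type) [Fintype ι] [Nonempty ι] (φ : ι → C.J), UpperBound C φ (D (Fintype.card ι))] ∧
    ∀ (ι : Type) [Fintype ι] [Nonempty ι] (φ : ι → C.J) (c : ℕ → ℝ),
      (∀ θ : ℝ, 1 < θ → ∀ᶠ k : ℕ in atTop, 1 ≤ c k * θ ^ (k + 1)) →
      (∀ k : ℕ, LowerBound C (fun p : Σ _ : Fin (k + 1), ι => φ p.2) (c k)) → Equidistribution C φ := by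
  have hmain := Pool.Agent.U644.EQ.main (equi (toCurves C))
  have e12 := hmain.out 0 1
  have e13 := hmain.out 0 2
  refine ⟨?_, ?_⟩
  · tfae_have 1 → 2 := by
      intro h
      obtain ⟨c, hc, hc'⟩ := e12.1 fun S => by
        obtain ⟨ι, φ⟩ := S
        exact (equid_iff C φ).1 (h ι φ)
      exact ⟨c, hc, fun ι _ _ φ => (lower_iff C φ _).2 (hc' _)⟩
    tfae_have 2 → 1 := by
      rintro ⟨c, hc, hc'⟩ ι _ _ φ
      refine (equid_iff C φ).2 (e12.2 ⟨c, hc, fun S => ?_⟩ _)
      obtain ⟨ι', φ'⟩ := S
      exact (lower_iff C φ' _).1 (hc' ι' φ')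
    tfae_have 1 → 3 := by
      intro h
      obtain ⟨c, hc, hc'⟩ := e13.1 fun S => by
        obtain ⟨ι, φ⟩ := S
        exact (equid_iff C φ).1 (h ι φ)
      exact ⟨c, hc, fun ι _ _ φ => (upper_iff C φ _).2 (hc' _).1⟩
    tfae_have 3 → 1 := by
      rintro ⟨c, hc, hc'⟩ ι _ _ φ
      refine (equid_iff C φ).2 (e13.2 ⟨c, hc, fun S => ⟨?_, noEscape (toCurves C) S⟩⟩ _)
      obtain ⟨ι', φ'⟩ := S
      exact (upper_iff C φ' _).1 (hc' ι' φ')
    tfae_finish
  · intro ι _ _ φ c hc h
    refine (equid_iff C φ).2 (Pool.Agent.U644.EQ.main_one (equi (toCurves C)) _ c hc fun k => ?_)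
    have : Nonempty (Σ _ : Fin (k + 1), ι) := ⟨⟨0, Classical.arbitrary ι⟩⟩
    exact (lower_iff C (fun p : Σ _ : Fin (k + 1), ι => φ p.2) (c k)).1 (h k)

end Pool.Agent.Results.MP_ad7a55_nt.ExponentialLossSuffices
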