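import Mathlib
import Pool.Agent.U980.RC.Cond

/-!
# Equidistribution of Galois orbits on products of modular curves: orders of the same CM field

Let `Y_j = Γ_j \ ℍ` (`j` in a finite set `ι`) be modular curves over a number field `F`, and let
`x_i = (x_{i,j})_j` be a sequence of special points of the product `X` of the curves `Y_j`, such that no
CM point occurs infinitely often in a coordinate (this is weaker than the assumption of the question). Let
`c_{i,j}` be the conductor of the quadratic order of `x_{i,j}`.

**Theorem.**

1. Let `n = 2`. The Galois orbits of the `x_i` over `F` are equidistributed on `X = Y_1 × Y_2` if for all `i` the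
   imaginary quadratic fields of the coordinates are different, or they are the same and
   `max (c_{i,1}, c_{i,2}) ≥ M_i gcd (c_{i,1}, c_{i,2})`, where `M_i` tends to infinity (arbitrarily slowly).
2. Let `n = 2`. The question for `X` follows from the question for the sequences of pairs `(x_{i,1}, x_{i,2})` with
   the same imaginary quadratic field and with `c_{i,1}, c_{i,2} ≤ B gcd (c_{i,1}, c_{i,2})` for a fixed `B`. (The
   statement is for any class of sequences which is closed under passing to subsequences, for
   instance the sequences of special points which are in no proper special subvariety infinitely often.)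
   So for two modular curves what remains is the case of the same order, up to bounded index: the
   mixing conjecture of Michel and Venkatesh.
3. For all `n` the Galois orbits are equidistributed if for all `i` there is an order of the coordinates such that
   for each coordinate `x_{i,j}` the `overlap` is at most `c |D_{i,j}| ^ η` (`η < δ`, see below), or all preceding
   coordinates have the same imaginary quadratic field as `x_{i,j}` and
   `c_{i,j} ≥ M_i gcd (c_{i,j}, lcm of the conductors of the preceding coordinates)`, `M_i` tending to infinity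
   (`RelativelyLarge`). The first alternative (different fields or different size) is the one
   of `MP_ad7a55_nt.DifferentCMFields`; the second one is new, and both may occur for the same `x_i`.

## The known facts

`IsQuadratic`, `IsCM`, `SparseEquidistribution` (with exponent `δ`) and `overlap` are those of
`MP_ad7a55_nt.DifferentCMFields` (file `Pool/Agent/U980/EQ/Defs.lean`): complex multiplication, genus theory and the
equidistribution of the orbits of large subgroups of the Galois group on one modular curve
(Harcos-Michel, Zhang, Michel-Venkatesh).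

`RingClassFields`: conductors and ring class fields. Let `N` be a common level of the curves. For an order `O` of
conductor `l` in `K` let `K(N; l)` be the abelian extension of `K` with norm group `K^× {u ∈ Ô^× : u ≡ 1 mod N Ô}`
(the ring class field of conductor `l` if `N = 1`). It is a Galois extension of `ℚ`, and by the main theorem of
complex multiplication the CM points of conductor dividing `l` are defined over it. `R K l` is the Galois
group of `ℚ̄` over the composite of `K(N; l)` and the Galois closure of `F`.

`RelativeEquidistribution` for one curve: let `y` be a CM point of conductor `c`, `h = gcd (c, l)` and `m = c / h`.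
If `m` is large, then for most conjugates `z` of `y` the orbit of `z` under `R K l` is almost equidistributed. This
follows from the equidistribution of Hecke orbits: as `K[c] ∩ K[l] = K[h]`, the orbit of `z` consists (for level
one and `F = ℚ`) of those CM points of conductor `c` which are related by a cyclic isogeny of degree `m`
to the CM point `z'` of conductor `h` below `z`. The points of the Hecke orbit `T_m z'` are
equidistributed with a power saving in `m`, uniformly for `z'` in compact sets (Clozel-Ullmo, Clozel-Oh-Ullmo);
most conjugates of `z'` are in a compact set by Duke's theorem; and the points of `T_m z'` of smaller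
conductor come from the at most two horizontal first steps at the primes which divide `m` but not `h`, so
that inclusion and exclusion over these primes gives the result. For the level and for `F` one replaces `h`
by a bounded multiple.

## Proof

`R K l` for the least common multiple `l` of the preceding conductors fixes the preceding coordinates and all
their conjugates. Averaging over `R K l` in the last coordinate changes the mean of a product of functions
of the coordinates only by the mean deviation over all conjugates of this coordinate (`av_far`); it is small,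
because the deviation is small for most conjugates. To pass from continuous functions to sets with
boundaries of measure zero, one uses that the sets of measures which contain the orbit measures of most
conjugates form a filter, finer than the filter of neighbourhoods of the hyperbolic measure
(`mostFilter`, `equi`). For coordinates with small overlap the group is the one constructed in
`MP_ad7a55_nt.DifferentCMFields`.
-/

set_option autoImplicit false

namespace Pool.Agent.Results.MP_ad7a55_nt.RelativeConductors

open Pool.Agent.U980.EQ Pool.Agent.U980.RC MeasureTheory Filter Topology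

variable {G 𝒦 : Type} [Group G] {ι : Type} {Y : ι → CMCurve G 𝒦}

/-- Every CM point occurs only finitely often in each coordinate. -/
def CoordinatewiseStrict (x : ℕ → ∀ j, (Y j).P) : Prop :=
  ∀ j, ∀ p : (Y j).P, ∀ᶠ i in atTop, x i j ≠ p

/-- The Galois orbits of the points `x i` are equidistributed on the product of the curves. -/
def Equidistributed [Fintype ι] (Γ : Subgroup G) (x : ℕ → ∀ j, (Y j).P) : Prop :=
  ∀ f : BoundedContinuousFunction (∀ j, (Y j).X) ℝ,
    Tendsto (fun i => ∫ z, f z ∂(galoisMeasure Γ (x i))) atTop
      (𝓝 (∫ z, f z ∂(Measure.pi fun j => (Y j).m)))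

/-- Coordinates of `x` with the same CM field have conductors with ratio at least `m`: the larger one is at
least `m` times their greatest common divisor. -/
def ConductorRatio (cond : ∀ j, (Y j).P → ℕ) (m : ℕ) (x : ∀ j, (Y j).P) : Prop :=
  ∀ j k, j ≠ k → (Y j).fld (x j) = (Y k).fld (x k) →
    m * Nat.gcd (cond j (x j)) (cond k (x k)) ≤ max (cond j (x j)) (cond k (x k))

/-- All coordinates of `x` have the same CM field, and their conductors are at most `B` times their
greatest common divisors. -/
def BoundedRatio (cond : ∀ j, (Y j).P → ℕ) (B : ℕ) (x : ∀ j, (Y j).P) : Prop :=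
  ∀ j k, (Y j).fld (x j) = (Y k).fld (x k) ∧
    cond j (x j) ≤ B * Nat.gcd (cond j (x j)) (cond k (x k))

theorem exists_rank {ι : Type} [Fintype ι] (D : ι → ℕ) :
    ∃ r : ι → ℕ, Function.Injective r ∧ ∀ j k, r k < r j → D k ≤ D j := by
  set n := Fintype.card ι with hn
  let e : ι ≃ Fin n := Fintype.equivFin ι
  refine ⟨fun j => D j * n + (e j : ℕ), ?_, ?_⟩
  · intro j k hjk
    have hjk' : D j * n + (e j : ℕ) = D k * n + (e k : ℕ) := hjk
    have h1 : (D j * n + (e j : ℕ)) % n = (D k * n + (e k : ℕ)) % n := by rw [hjk']
    rw [Nat.mul_add_mod', Nat.mul_add_mod', Nat.mod_eq_of_lt (e j).2, Nat.mod_eq_of_lt (e k).2] at h1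
    exact e.injective (Fin.ext h1)
  · intro j k hkj
    have h2 : D k * n + (e k : ℕ) < D j * n + (e j : ℕ) := hkj
    have h3 := (e j).2
    by_contra hlt
    push Not at hlt
    have h4 : (D j + 1) * n ≤ D k * n := Nat.mul_le_mul_right n hlt
    rw [add_mul, one_mul] at h4
    omega

section two

variable [Fintype ι]

theorem eq_of_card_two (h2 : Fintype.card ι = 2) {j k l : ι} (hjk : k ≠ j) (hl : l ≠ j) : l = k := by
  classical
  by_contra hlk
  have h3 : ({j, k, l} : Finset ι).card = 3 := by
    rw [Finset.card_insert_of_notMem, Finset.card_insert_of_notMem, Finset.card_singleton]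
    · simpa using fun h => hlk h.symm
    · simp only [Finset.mem_insert, Finset.mem_singleton, not_or]
      exact ⟨fun h => hjk h.symm, fun h => hl h.symm⟩
  have h4 := Finset.card_le_univ ({j, k, l} : Finset ι)
  omega

theorem overlap_eq_one' {gal : 𝒦 → Subgroup G} {r : ι → ℕ} {x : ∀ j, (Y j).P} {j : ι}
    (h : ∀ k, r k < r j → (Y k).fld (x k) ≠ (Y j).fld (x j)) : overlap gal r x j = 1 := by
  have h0 : (⨅ k, ⨅ _ : r k < r j ∧ (Y k).fld (x k) = (Y j).fld (x j), (Y k).N (x k)) = ⊤ :=
    iInf_eq_top.2 fun k => iInf_eq_top.2 fun hk => absurd hk.2 (h k hk.1)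
  rw [overlap, common, h0, sup_top_eq, Subgroup.relIndex_top_left]

/-- For two coordinates the conductors satisfy the conditions for a suitable order. -/
theorem two_cases (h2 : Fintype.card ι = 2) (gal : 𝒦 → Subgroup G) (cond : ∀ j, (Y j).P → ℕ) {m : ℕ}
    {x : ∀ j, (Y j).P} (hx : ConductorRatio cond m x) {r : ι → ℕ}
    (hrD : ∀ j k, r k < r j → cond k (x k) ≤ cond j (x j)) (j : ι) :
    overlap gal r x j = 1 ∨ RelativelyLarge cond r m x j := by
  classical
  by_cases h : ∀ k, r k < r j → (Y k).fld (x k) ≠ (Y j).fld (x j)
  · exact Or.inl (overlap_eq_one' h)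
  · push Not at h
    obtain ⟨k, hk, hkj⟩ := h
    have hne : k ≠ j := fun h => by rw [h] at hk; exact lt_irrefl _ hk
    have hall : ∀ l, r l < r j → l = k := fun l hl =>
      eq_of_card_two h2 hne fun h => by rw [h] at hl; exact lt_irrefl _ hl
    refine Or.inr ⟨fun l hl => by rw [hall l hl]; exact hkj, ?_⟩
    have hf : (Finset.univ.filter fun l => r l < r j) = {k} := by
      ext l
      simp only [Finset.mem_filter, Finset.mem_univ, true_and, Finset.mem_singleton]
      exact ⟨hall l, fun h => by rw [h]; exact hk⟩
    have hp : preceding cond r x j = cond k (x k) := by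
      rw [preceding, hf, Finset.lcm_singleton]
      simp
    rw [hp]
    have h3 := hx j k hne.symm hkj.symm
    rwa [max_eq_left (hrD j k hk)] at h3

end two

/-- **Equidistribution of the Galois orbits of special points whose coordinates have different CM fields, or
the same CM field and relative conductors which tend to infinity.** -/
theorem result [Fintype ι] {gal : 𝒦 → Subgroup G} (hgal : IsQuadratic gal) {Γ : Subgroup G}
    (hΓ : Γ.index ≠ 0) (hY : ∀ j, IsCM gal Γ (Y j)) {δ : ℝ} (hδ : 0 < δ)
    (hE : ∀ j, SparseEquidistribution gal Γ (Y j) δ) (C : RingClassFields gal Γ Y)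
    (hR : ∀ j, RelativeEquidistribution Γ (Y j) (C.cond j) C.R) :
    (Fintype.card ι = 2 → ∀ x : ℕ → ∀ j, (Y j).P, (∀ i j, x i j ∈ (Y j).comp) →
      CoordinatewiseStrict x → ∀ M : ℕ → ℕ, Tendsto M atTop atTop →
      (∀ i, ConductorRatio C.cond (M i) (x i)) → Equidistributed Γ x) ∧
    (Fintype.card ι = 2 → ∀ 𝒮 : Set (ℕ → ∀ j, (Y j).P),
      (∀ x ∈ 𝒮, (∀ i j, x i j ∈ (Y j).comp) ∧ CoordinatewiseStrict x) →
      (∀ x ∈ 𝒮, ∀ φ : ℕ → ℕ, StrictMono φ → x ∘ φ ∈ 𝒮) →
      (∀ x ∈ 𝒮, (∃ B, ∀ i, BoundedRatio C.cond B (x i)) → Equidistributed Γ x) →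
      ∀ x ∈ 𝒮, Equidistributed Γ x) ∧
    ∀ x : ℕ → ∀ j, (Y j).P, (∀ i j, x i j ∈ (Y j).comp) → CoordinatewiseStrict x →
      ∀ M : ℕ → ℕ, Tendsto M atTop atTop →
      ∀ r : ℕ → ι → ℕ, (∀ i, Function.Injective (r i)) → ∀ c η : ℝ, η < δ →
      (∀ i j, (overlap gal (r i) (x i) j : ℝ) ≤ c * ((Y j).disc (x i j) : ℝ) ^ η ∨
        RelativelyLarge C.cond (r i) (M i) (x i) j) →
      Equidistributed Γ x := by
  classical
  have h3 : ∀ x : ℕ → ∀ j, (Y j).P, (∀ i j, x i j ∈ (Y j).comp) → CoordinatewiseStrict x →
      ∀ M : ℕ → ℕ, Tendsto M atTop atTop →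
      ∀ r : ℕ → ι → ℕ, (∀ i, Function.Injective (r i)) → ∀ c η : ℝ, η < δ →
      (∀ i j, (overlap gal (r i) (x i) j : ℝ) ≤ c * ((Y j).disc (x i j) : ℝ) ^ η ∨
        RelativelyLarge C.cond (r i) (M i) (x i) j) →
      Equidistributed Γ x := fun x hx hs M hM r hr c η hη h f =>
    main hgal hΓ hY hδ hE C hR x hx hs M hM r hr hη h f
  have h1 : Fintype.card ι = 2 → ∀ x : ℕ → ∀ j, (Y j).P, (∀ i j, x i j ∈ (Y j).comp) →
      CoordinatewiseStrict x → ∀ M : ℕ → ℕ, Tendsto M atTop atTop →
      (∀ i, ConductorRatio C.cond (M i) (x i)) → Equidistributed Γ x := by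
    intro h2 x hx hs M hM hratio
    choose r hr hrD using fun i => exists_rank fun j => C.cond j (x i j)
    refine h3 x hx hs M hM r hr 1 0 hδ fun i j => ?_
    rcases two_cases h2 gal C.cond (hratio i) (hrD i) j with h | h
    · left
      rw [h]
      simp
    · exact Or.inr h
  refine ⟨h1, ?_, h3⟩
  intro h2 𝒮 h𝒮 hsub hbdd x hxS f
  by_contra hcon
  -- a subsequence which stays away from the limit
  rw [Metric.tendsto_nhds] at hcon
  push Not at hcon
  obtain ⟨ε, hε, hfreq⟩ := hcon
  have hfreq' : ∃ᶠ i in atTop, ε ≤ dist (∫ z, f z ∂(galoisMeasure Γ (x i)))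
      (∫ z, f z ∂(Measure.pi fun j => (Y j).m)) := by
    simpa using hfreq
  obtain ⟨φ, hφ, hfar⟩ := extraction_of_frequently_atTop hfreq'
  have hxφ : x ∘ φ ∈ 𝒮 := hsub x hxS φ hφ
  have hno : ∀ ψ : ℕ → ℕ, StrictMono ψ → ¬ Equidistributed Γ ((x ∘ φ) ∘ ψ) := by
    intro ψ hψ heq
    have h4 := heq f
    rw [Metric.tendsto_nhds] at h4
    obtain ⟨i, hi⟩ := (h4 ε hε).exists
    exact absurd (hfar (ψ i)) (not_le.2 hi)
  by_cases hB : ∃ B, ∃ᶠ i in atTop, BoundedRatio C.cond B ((x ∘ φ) i)
  · obtain ⟨B, hB⟩ := hB
    obtain ⟨ψ, hψ, hψB⟩ := extraction_of_frequently_atTop hB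
    exact hno ψ hψ (hbdd _ (hsub _ hxφ ψ hψ) ⟨B, hψB⟩)
  · push Not at hB
    -- the ratios tend to infinity
    set M : ℕ → ℕ := fun i =>
      Nat.findGreatest (fun m => ConductorRatio C.cond m ((x ∘ φ) i)) i with hM
    have hMr : ∀ i, ConductorRatio C.cond (M i) ((x ∘ φ) i) := by
      intro i
      have h0 : ConductorRatio C.cond 0 ((x ∘ φ) i) := by
        intro j k _ _
        simp
      exact Nat.findGreatest_spec (P := fun m => ConductorRatio C.cond m ((x ∘ φ) i))
        (Nat.zero_le i) h0
    have hMt : Tendsto M atTop atTop := by
      rw [tendsto_atTop]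
      intro B
      have h5 : ∀ᶠ i in atTop, ¬ BoundedRatio C.cond B ((x ∘ φ) i) := by
        simpa [Filter.Frequently] using hB B
      filter_upwards [h5, eventually_ge_atTop B] with i hi hiB
      refine Nat.le_findGreatest hiB ?_
      intro j k hjk hf
      by_contra hlt
      push Not at hlt
      refine hi fun j' k' => ?_
      have hjj : ∀ l : ι, l = j ∨ l = k := by
        intro l
        by_cases hl : l = j
        · exact Or.inl hl
        · exact Or.inr (eq_of_card_two h2 (fun h => hjk h.symm) hl)
      have hc := fun l => C.cond_pos l ((x ∘ φ) i l)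
      have hself : ∀ l, C.cond l ((x ∘ φ) i l) ≤
          B * Nat.gcd (C.cond l ((x ∘ φ) i l)) (C.cond l ((x ∘ φ) i l)) := by
        intro l
        rw [Nat.gcd_self]
        have hB0 : 0 < B := by
          rcases Nat.eq_zero_or_pos B with h0 | h0
          · rw [h0, zero_mul] at hlt
            exact absurd hlt (not_lt.2 (Nat.zero_le _))
          · exact h0
        exact Nat.le_mul_of_pos_left _ hB0
      rcases hjj j' with rfl | rfl <;> rcases hjj k' with rfl | rfl
      · exact ⟨rfl, hself _⟩
      · exact ⟨hf, ((le_max_left _ _).trans hlt.le)⟩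
      · refine ⟨hf.symm, ?_⟩
        rw [Nat.gcd_comm]
        exact (le_max_right _ _).trans hlt.le
      · exact ⟨rfl, hself _⟩
    exact hno id strictMono_id (h1 h2 _ (h𝒮 _ hxφ).1 (h𝒮 _ hxφ).2 M hMt hMr)

end Pool.Agent.Results.MP_ad7a55_nt.RelativeConductors
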